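import Pool.Agent.W541.DL.Stm

/-!
Project DL, part MEASK: measurability of the largest length over any set of paths.
-/

set_option autoImplicit false

open MeasureTheory Filter Topology Set

namespace Pool.Agent.W790.DL.MEASK

open Pool.Agent.W541.DL

theorem pathVal_cont {w : ℕ → ℝ → ℝ} (hw : ∀ k, Continuous (w k)) (n : ℕ) :
    Continuous (pathVal w n) := by
  unfold pathVal
  exact continuous_finsetSum _ fun k _ =>
    ((hw k).comp (continuous_apply (k + 1))).sub ((hw k).comp (continuous_apply k))

/-- a countable set of paths is enough -/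
theorem exists_countable (n : ℕ) (K : Set (ℕ → ℝ)) : ∃ D : Set (ℕ → ℝ), D ⊆ K ∧ D.Countable ∧
    ∀ w : ℕ → ℝ → ℝ, (∀ k, Continuous (w k)) → supK w n K = supK w n D := by
  obtain ⟨s, hs, hd⟩ := TopologicalSpace.exists_countable_dense K
  refine ⟨Subtype.val '' s, ?_, hs.image _, ?_⟩
  · rintro _ ⟨x, -, rfl⟩
    exact x.2
  intro w hw
  have hf := pathVal_cont hw n
  have hcl : K ⊆ closure (Subtype.val '' s) := by
    intro x hx
    exact closure_subtype.1 (hd ⟨x, hx⟩)
  have hub : ∀ b, b ∈ upperBounds (pathVal w n '' (Subtype.val '' s)) →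
      b ∈ upperBounds (pathVal w n '' K) := by
    rintro b hb _ ⟨x, hx, rfl⟩
    have h1 : IsClosed {y | pathVal w n y ≤ b} := isClosed_le hf continuous_const
    have h2 : Subtype.val '' s ⊆ {y | pathVal w n y ≤ b} := by
      intro y hy
      exact hb ⟨y, hy, rfl⟩
    exact closure_minimal h2 h1 (hcl hx)
  have hsub : Subtype.val '' s ⊆ K := by
    rintro _ ⟨x, -, rfl⟩
    exact x.2
  have hub' : ∀ b, b ∈ upperBounds (pathVal w n '' K) →
      b ∈ upperBounds (pathVal w n '' (Subtype.val '' s)) :=
    fun b hb => upperBounds_mono_set (image_mono hsub) hb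
  unfold supK
  rcases K.eq_empty_or_nonempty with hK | hK
  · have : Subtype.val '' s = ∅ := subset_empty_iff.1 (hK ▸ hsub)
    rw [this, hK]
  · have hD : (Subtype.val '' s).Nonempty := by
      obtain ⟨x, hx⟩ := hK
      exact closure_nonempty_iff.1 ⟨x, hcl hx⟩
    by_cases hb : BddAbove (pathVal w n '' (Subtype.val '' s))
    · have h1 := isLUB_csSup (hD.image (pathVal w n)) hb
      have h2 : IsLUB (pathVal w n '' K) (sSup (pathVal w n '' (Subtype.val '' s))) :=
        ⟨hub _ h1.1, fun b hb' => h1.2 (hub' b hb')⟩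
      exact h2.csSup_eq (hK.image _)
    · have hb' : ¬ BddAbove (pathVal w n '' K) := fun ⟨b, h⟩ => hb ⟨b, hub' b h⟩
      rw [Real.sSup_of_not_bddAbove hb, Real.sSup_of_not_bddAbove hb']

theorem main : S_MEASK := by
  intro Ω F W n K hW hM
  obtain ⟨D, hDK, hD, hsup⟩ := exists_countable n K
  have e : (fun ω => supK (env W ω) n K) = fun ω => ⨆ τ : D, pathVal (env W ω) n τ := by
    funext ω
    rw [hsup (env W ω) fun k => hW k ω]
    unfold supK
    exact sSup_image'
  rw [e]
  have : Countable D := hD.to_subtype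
  refine Measurable.iSup fun τ => ?_
  unfold pathVal
  refine Finset.measurable_sum _ fun k hk => ?_
  exact hM τ (hDK τ.2) k (Finset.mem_range.1 hk)

end Pool.Agent.W790.DL.MEASK
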